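import Pool.Agent.Y171.CE.Stm

/-!
# CE-DIMN: function spaces on `F ^ 2 ⋊ SL_2(F)` without invariants of `F ^ 2` (helper362)
-/

set_option autoImplicit false

namespace Pool.Agent.Y362.CE

open Matrix Finset Pool.Agent.Y171.CE

section basic

variable {F : Type} [Field F]

lemma gp_mul (u v : Fin 2 → F) : (⟨u, 1⟩ : Gp F) * ⟨v, 1⟩ = ⟨u + v, 1⟩ := by
  refine Gp.ext ?_ ?_
  · rw [Gp.mul_v]
    change u + act 1 v = u + v
    rw [act_one]
  · rw [Gp.mul_m]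
    exact one_mul 1

lemma gp_conj (h : SL2 F) (u : Fin 2 → F) :
    (⟨0, h⟩ : Gp F) * ⟨u, 1⟩ = ⟨act h u, 1⟩ * ⟨0, h⟩ := by
  refine Gp.ext ?_ ?_
  · rw [Gp.mul_v, Gp.mul_v]
    change 0 + act h u = act h u + act 1 0
    rw [act_one, add_zero, zero_add]
  · rw [Gp.mul_m, Gp.mul_m]
    change h * 1 = 1 * h
    rw [one_mul, mul_one]

/-- a matrix with a given first row -/
lemma exists_row (y : Fin 2 → F) (hy : y ≠ 0) : ∃ h : SL2 F, ∀ u : Fin 2 → F,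
    y ⬝ᵥ u = act h u 0 := by
  by_cases h0 : y 0 = 0
  · have h1 : y 1 ≠ 0 := by
      intro h1
      apply hy
      funext i
      fin_cases i
      · exact h0
      · exact h1
    refine ⟨⟨!![y 0, y 1; -(y 1)⁻¹, 0], ?_⟩, ?_⟩
    · rw [Matrix.det_fin_two_of, mul_zero, zero_sub, mul_neg, mul_inv_cancel₀ h1, neg_neg]
    · intro u
      change _ = (!![y 0, y 1; -(y 1)⁻¹, 0] *ᵥ u) 0
      simp [Matrix.mulVec, dotProduct, Fin.sum_univ_two]
  · refine ⟨⟨!![y 0, y 1; 0, (y 0)⁻¹], ?_⟩, ?_⟩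
    · rw [Matrix.det_fin_two_of, mul_zero, sub_zero, mul_inv_cancel₀ h0]
    · intro u
      change _ = (!![y 0, y 1; 0, (y 0)⁻¹] *ᵥ u) 0
      simp [Matrix.mulVec, dotProduct, Fin.sum_univ_two]

variable [Fintype F] [DecidableEq F]

/-- orthogonality -/
lemma sum_zero (ψ : AddChar F ℂ) (hψ : ∃ a, ψ a ≠ 1) (z : Fin 2 → F) (hz : z ≠ 0) :
    ∑ v : Fin 2 → F, ψ (z ⬝ᵥ v) = 0 := by
  obtain ⟨a, ha⟩ := hψ
  obtain ⟨i, hi⟩ : ∃ i, z i ≠ 0 := by
    by_contra hc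
    push Not at hc
    exact hz (funext hc)
  have h1 : z ⬝ᵥ Pi.single i (a / z i) = a := by
    rw [dotProduct_single, mul_div_cancel₀ _ hi]
  have h2 : ∑ v : Fin 2 → F, ψ (z ⬝ᵥ v) = ψ a * ∑ v : Fin 2 → F, ψ (z ⬝ᵥ v) := by
    rw [mul_sum, ← Equiv.sum_comp (Equiv.addRight (Pi.single i (a / z i) : Fin 2 → F))]
    refine sum_congr rfl fun v _ => ?_
    rw [Equiv.coe_addRight, dotProduct_add, h1, AddChar.map_add_eq_mul, mul_comm]
  have h3 : (1 - ψ a) * ∑ v : Fin 2 → F, ψ (z ⬝ᵥ v) = 0 := by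
    rw [sub_mul, one_mul, ← h2, sub_self]
  exact (mul_eq_zero.1 h3).resolve_left (sub_ne_zero.2 (Ne.symm ha))

/-- the projection -/
noncomputable def PP (ψ : AddChar F ℂ) (y : Fin 2 → F) (f : Gp F → ℂ) : Gp F → ℂ :=
  fun x => ∑ v : Fin 2 → F, ψ (-(y ⬝ᵥ v)) * f (⟨v, 1⟩ * x)

/-- the functions with a given character -/
def Eg (ψ : AddChar F ℂ) (y : Fin 2 → F) (f : Gp F → ℂ) : Prop :=
  ∀ (u : Fin 2 → F) (x : Gp F), f (⟨u, 1⟩ * x) = ψ (y ⬝ᵥ u) * f x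

omit [DecidableEq F] in
lemma PP_eg (ψ : AddChar F ℂ) (y : Fin 2 → F) (f : Gp F → ℂ) : Eg ψ y (PP ψ y f) := by
  intro u x
  unfold PP
  rw [mul_sum, ← Equiv.sum_comp (Equiv.addRight (-u))]
  refine sum_congr rfl fun v _ => ?_
  rw [Equiv.coe_addRight, ← mul_assoc, gp_mul, neg_add_cancel_right, dotProduct_add,
    dotProduct_neg, neg_add, neg_neg, AddChar.map_add_eq_mul, ← mul_assoc,
    mul_comm (ψ (y ⬝ᵥ u))]

omit [DecidableEq F] in
lemma PP_mem (ψ : AddChar F ℂ) (y : Fin 2 → F) {V : Submodule ℂ (Gp F → ℂ)}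
    (hV : ∀ f ∈ V, ∀ g : Gp F, (fun x => f (g * x)) ∈ V) {f : Gp F → ℂ} (hf : f ∈ V) :
    PP ψ y f ∈ V := by
  have h1 : PP ψ y f = ∑ v : Fin 2 → F, ψ (-(y ⬝ᵥ v)) • fun x => f (⟨v, 1⟩ * x) := by
    funext x
    rw [Finset.sum_apply]
    rfl
  rw [h1]
  exact V.sum_mem fun v _ => V.smul_mem _ (hV f hf _)

/-- the projections of functions with a given character -/
lemma PP_of_eg (ψ : AddChar F ℂ) (hψ : ∃ a, ψ a ≠ 1) (y z : Fin 2 → F) {f : Gp F → ℂ}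
    (hf : Eg ψ z f) (x : Gp F) :
    PP ψ y f x = if z = y then (Fintype.card (Fin 2 → F) : ℂ) * f x else 0 := by
  unfold PP
  have h1 : ∀ v : Fin 2 → F, ψ (-(y ⬝ᵥ v)) * f (⟨v, 1⟩ * x) = ψ ((z - y) ⬝ᵥ v) * f x := by
    intro v
    rw [hf v x, ← mul_assoc, ← AddChar.map_add_eq_mul, sub_dotProduct, neg_add_eq_sub]
  rw [sum_congr rfl fun v _ => h1 v, ← sum_mul]
  split_ifs with h
  · rw [h, sub_self]
    simp
  · rw [sum_zero ψ hψ _ (sub_ne_zero.2 h), zero_mul]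

/-- the inversion formula -/
lemma sum_PP (ψ : AddChar F ℂ) (hψ : ∃ a, ψ a ≠ 1) (f : Gp F → ℂ) (x : Gp F) :
    ∑ y : Fin 2 → F, PP ψ y f x = (Fintype.card (Fin 2 → F) : ℂ) * f x := by
  unfold PP
  rw [sum_comm, Finset.sum_eq_single (0 : Fin 2 → F)]
  · have h1 : (⟨0, 1⟩ : Gp F) * x = x := one_mul x
    rw [h1]
    simp
  · intro v _ hv
    rw [← sum_mul]
    have h1 : ∑ y : Fin 2 → F, ψ (-(y ⬝ᵥ v)) = 0 := by
      rw [← sum_zero ψ hψ (-v) (neg_ne_zero.2 hv)]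
      refine sum_congr rfl fun y _ => ?_
      rw [neg_dotProduct, dotProduct_comm]
    rw [h1, zero_mul]
  · intro h
    exact absurd (mem_univ _) h

end basic

/-- translation by matrices -/
lemma trans_eg {F : Type} [Field F] (ψ : AddChar F ℂ) {y y' : Fin 2 → F} (h : SL2 F)
    (hy : ∀ u, y' ⬝ᵥ u = y ⬝ᵥ act h u) {f : Gp F → ℂ} (hf : Eg ψ y f) :
    Eg ψ y' fun x => f (⟨0, h⟩ * x) := by
  intro u x
  change f (⟨0, h⟩ * (⟨u, 1⟩ * x)) = ψ (y' ⬝ᵥ u) * f (⟨0, h⟩ * x)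
  rw [← mul_assoc, gp_conj, mul_assoc, hf, hy]

/-- CE-DIMN -/
theorem dimn : S_DIMN := by
  intro F _ _ _ V hV hne hinv
  obtain ⟨ψ, hψ'⟩ : ∃ ψ : AddChar F ℂ, ψ 1 ≠ 1 := AddChar.exists_apply_ne_zero.2 one_ne_zero
  have hψ : ∃ a, ψ a ≠ 1 := ⟨1, hψ'⟩
  have hq : (Fintype.card (Fin 2 → F) : ℂ) ≠ 0 := by
    exact_mod_cast Fintype.card_ne_zero
  -- some nontrivial character occurs
  obtain ⟨y, hy, f, hf, hfe, hf0⟩ : ∃ y : Fin 2 → F, y ≠ 0 ∧ ∃ f ∈ V, Eg ψ y f ∧ f ≠ 0 := by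
    obtain ⟨f, hf, hf0⟩ := V.ne_bot_iff.1 hne
    by_contra hc
    push Not at hc
    have h1 : ∀ y : Fin 2 → F, PP ψ y f = 0 := by
      intro y
      by_cases hy : y = 0
      · subst hy
        funext x
        unfold PP
        have h2 := hinv f hf x
        simpa using h2
      · exact hc y hy _ (PP_mem ψ y hV hf) (PP_eg ψ y f)
    apply hf0
    funext x
    have h2 := sum_PP ψ hψ f x
    rw [sum_eq_zero fun y _ => by rw [h1 y]; rfl] at h2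
    exact (mul_eq_zero.1 h2.symm).resolve_left hq
  -- all nontrivial characters occur
  have htr : ∀ (f : Gp F → ℂ) (h : SL2 F), f ≠ 0 → (fun x => f (⟨0, h⟩ * x)) ≠ 0 := by
    intro f h hf0 hc
    apply hf0
    funext x
    have h1 := congrFun hc ((⟨0, h⟩ : Gp F)⁻¹ * x)
    rw [← mul_inv_cancel_left (⟨0, h⟩ : Gp F) x]
    exact h1
  have hall : ∀ z : {z : Fin 2 → F // z ≠ 0}, ∃ f : V, Eg ψ z.1 f.1 ∧ f.1 ≠ 0 := by
    rintro ⟨z, hz⟩
    obtain ⟨h1, hh1⟩ := exists_row y hy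
    obtain ⟨h2, hh2⟩ := exists_row z hz
    have h3 : ∀ u, z ⬝ᵥ u = y ⬝ᵥ act (h1⁻¹ * h2) u := by
      intro u
      rw [hh1, hh2, ← act_mul, mul_inv_cancel_left]
    exact ⟨⟨_, hV f hf ⟨0, h1⁻¹ * h2⟩⟩, trans_eg ψ _ h3 hfe, htr f _ hf0⟩
  choose w hw hw0 using hall
  have hli : LinearIndependent ℂ w := by
    rw [Fintype.linearIndependent_iff]
    intro c hc z
    have h1 : ∀ x, ∑ t, c t * (w t).1 x = 0 := by
      intro x
      have h2 := congrFun (congrArg Subtype.val hc) x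
      rw [Submodule.coe_sum, Finset.sum_apply] at h2
      exact h2
    obtain ⟨x, hx⟩ := Function.ne_iff.1 (hw0 z)
    have h3 : PP ψ z.1 (fun x => ∑ t, c t * (w t).1 x) x = 0 := by
      unfold PP
      simp only [h1, mul_zero, sum_const_zero]
    have h4 : PP ψ z.1 (fun x => ∑ t, c t * (w t).1 x) x = ∑ t, c t * PP ψ z.1 (w t).1 x := by
      unfold PP
      simp only [mul_sum]
      rw [sum_comm]
      exact sum_congr rfl fun t _ => sum_congr rfl fun v _ => by ring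
    rw [h4, Finset.sum_eq_single z] at h3
    · rw [PP_of_eg ψ hψ z.1 z.1 (hw z) x, if_pos rfl] at h3
      exact (mul_eq_zero.1 h3).resolve_right (mul_ne_zero hq hx)
    · intro t _ ht
      rw [PP_of_eg ψ hψ z.1 t.1 (hw t) x, if_neg (fun hc => ht (Subtype.ext hc)), mul_zero]
    · intro h
      exact absurd (mem_univ _) h
  have h1 := hli.fintype_card_le_finrank
  have h2 : Fintype.card {z : Fin 2 → F // z ≠ 0} = Fintype.card F ^ 2 - 1 := by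
    rw [Fintype.card_subtype_compl, Fintype.card_subtype_eq, Fintype.card_fun, Fintype.card_fin]
  rw [← h2]
  exact h1

end Pool.Agent.Y362.CE
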